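import Pool.Agent.SSF.Stmts

/-! # SSF row HAM: a partition in the scale, and two cutoffs -/

set_option autoImplicit false

open Set Topology

namespace Pool.Agent.SSF.H51

open Pool.Agent.LSG Pool.Agent.LPR Pool.Agent.SSF

theorem half_mul (n : ℕ) : (1 / 2 : ℝ) ^ n * 2 ^ n = 1 := by
  rw [← mul_pow]; norm_num

/-- the cutoff -/
noncomputable def cf (a : ℕ) (b : ℝ) (m : ℕ) : C(ℝ, ℝ) :=
  ⟨fun r => max 0 (min 1 (min (r * 2 ^ (m + a) - 1) ((2 * b - r * 2 ^ m) / b))), by fun_prop⟩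

theorem cf_app (a : ℕ) (b : ℝ) (m : ℕ) (r : ℝ) :
    cf a b m r = max 0 (min 1 (min (r * 2 ^ (m + a) - 1) ((2 * b - r * 2 ^ m) / b))) := rfl

theorem cf_bd (a : ℕ) (b : ℝ) (m : ℕ) (r : ℝ) : 0 ≤ cf a b m r ∧ cf a b m r ≤ 1 := by
  rw [cf_app]
  exact ⟨le_max_left _ _, max_le zero_le_one (min_le_left _ _)⟩

theorem cf_one (a : ℕ) (b : ℝ) (hb : 0 < b) (m : ℕ) (r : ℝ)
    (h1 : 2 * (1 / 2 : ℝ) ^ (m + a) ≤ r) (h2 : r ≤ b * (1 / 2 : ℝ) ^ m) : cf a b m r = 1 := by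
  have e1 := mul_le_mul_of_nonneg_right h1 (by positivity : (0 : ℝ) ≤ 2 ^ (m + a))
  rw [mul_assoc, half_mul, mul_one] at e1
  have e2 := mul_le_mul_of_nonneg_right h2 (by positivity : (0 : ℝ) ≤ 2 ^ m)
  rw [mul_assoc, half_mul, mul_one] at e2
  have e3 : 1 ≤ (2 * b - r * 2 ^ m) / b := by
    rw [le_div_iff₀ hb]; linarith
  rw [cf_app, min_eq_left (le_min (by linarith) e3), max_eq_right zero_le_one]

theorem cf_supp (a : ℕ) (b : ℝ) (hb : 0 < b) (m : ℕ) (r : ℝ) (h : cf a b m r ≠ 0) :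
    (1 / 2 : ℝ) ^ (m + a) < r ∧ r < 2 * b * (1 / 2 : ℝ) ^ m := by
  rw [cf_app] at h
  have h1 : 0 < min 1 (min (r * 2 ^ (m + a) - 1) ((2 * b - r * 2 ^ m) / b)) := by
    by_contra hh
    exact h (max_eq_left (not_lt.1 hh))
  rw [lt_min_iff, lt_min_iff] at h1
  obtain ⟨-, h2, h3⟩ := h1
  have h4 : 0 < 2 * b - r * 2 ^ m := by
    by_contra hc
    have : (2 * b - r * 2 ^ m) / b ≤ 0 := div_nonpos_of_nonpos_of_nonneg (not_lt.1 hc) hb.le
    linarith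
  constructor
  · by_contra hc
    have e1 := mul_le_mul_of_nonneg_right (not_lt.1 hc) (by positivity : (0 : ℝ) ≤ 2 ^ (m + a))
    rw [half_mul] at e1
    linarith
  · by_contra hc
    have e2 := mul_le_mul_of_nonneg_right (not_lt.1 hc) (by positivity : (0 : ℝ) ≤ 2 ^ m)
    rw [mul_assoc, half_mul, mul_one] at e2
    linarith

theorem ham (hHAT : HatStmt) : HamStmt := by
  obtain ⟨h, h1, h2, h3⟩ := hHAT
  refine ⟨fun m => ⟨fun r => (h m r) ^ 2, (h m).continuous.pow 2⟩, cf 2 2, cf 4 8,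
    fun m r => sq_nonneg _, fun m r => cf_bd _ _ _ _, fun m r => cf_bd _ _ _ _, ?_, ?_, ?_, ?_, ?_⟩
  · intro m r hm
    have hm' : h m r ≠ 0 := fun h0 => hm (by
      show (h m r) ^ 2 = 0
      rw [h0]; norm_num)
    obtain ⟨g1, g2⟩ := h2 m r hm'
    refine cf_one 2 2 (by norm_num) m r ?_ g2.le
    have : 2 * (1 / 2 : ℝ) ^ (m + 2) = (1 / 2 : ℝ) ^ (m + 1) := by
      rw [pow_succ (1 / 2 : ℝ) (m + 1)]; ring
    rw [this]; exact g1.le
  · intro m r hm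
    obtain ⟨g1, g2⟩ := cf_supp 2 2 (by norm_num) m r hm
    refine ⟨g1, ?_⟩
    linarith
  · intro m r g1 g2
    refine cf_one 4 8 (by norm_num) m r ?_ g2
    have : 2 * (1 / 2 : ℝ) ^ (m + 4) = (1 / 2 : ℝ) ^ (m + 3) := by
      rw [pow_succ (1 / 2 : ℝ) (m + 3)]; ring
    rw [this]; exact g1
  · intro m r hm
    obtain ⟨g1, g2⟩ := cf_supp 4 8 (by norm_num) m r hm
    refine ⟨g1, ?_⟩
    linarith
  · intro r hr hr1
    obtain ⟨j, j1, j2⟩ := h3 r hr hr1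
    refine ⟨j, fun m hm => j1 m fun h0 => hm (by
      show (h m r) ^ 2 = 0
      rw [h0]; norm_num), j2⟩

end Pool.Agent.SSF.H51
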